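import Mathlib

/-! # MP_65b575_al, project MS: finitely presented monsters and the space of marked groups: statements

The modules prove `t_X : ... → S_X`, with the hypotheses given in the docstring of `S_X`. -/

set_option autoImplicit false

open Function

noncomputable section

namespace Pool.Agent.L0h7.MS

/-- The infinite groups with `r` marked generators: the normal subgroups of infinite index of the
free group. -/
def Marked (r : ℕ) : Type :=
  {K : Subgroup (FreeGroup (Fin r)) // K.Normal ∧ Infinite (FreeGroup (Fin r) ⧸ K)}

/-- the characteristic function of the normal subgroup -/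
def chi {r : ℕ} (N : Marked r) (w : FreeGroup (Fin r)) : Bool :=
  open Classical in decide (w ∈ N.1)

/-- The topology of pointwise convergence (the Chabauty topology). -/
instance (r : ℕ) : TopologicalSpace (Marked r) :=
  TopologicalSpace.induced chi inferInstance

instance {r : ℕ} (N : Marked r) : N.1.Normal := N.2.1

/-- the group of a point -/
abbrev grp {r : ℕ} (N : Marked r) : Type := FreeGroup (Fin r) ⧸ N.1

/-- `G` is generated by `r` elements -/
def Gen (r : ℕ) (G : Type) [Group G] : Prop := ∃ f : FreeGroup (Fin r) →* G, Surjective f

/-- the property passes to infinite quotients of finitely generated groups (so it also only depends on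
the isomorphism class) -/
def HerFG (P : (G : Type) → [Group G] → Prop) : Prop :=
  ∀ (G H : Type) [Group G] [Group H] (f : G →* H), Group.FG G → Surjective f → Infinite H →
    P G → P H

/-- type (2) -/
def Type2 (G : Type) [Group G] : Prop := ∃ n : ℕ, 1 ≤ n ∧ ∀ g : G, g ^ n = 1

/-- type (3) -/
def Type3 (G : Type) [Group G] : Prop := ¬ IsCyclic G ∧ ∀ H : Subgroup G, H ≠ ⊤ → IsCyclic H

/-- type (4) -/
def Type4 (G : Type) [Group G] : Prop :=
  ∃ p : ℕ, p.Prime ∧ ∀ H : Subgroup G, H ≠ ⊥ → H ≠ ⊤ → IsCyclic H ∧ Nat.card H = p

/-- type (5) -/
def Type5 (G : Type) [Group G] : Prop := ∀ g : G, ∀ m : ℕ, 1 ≤ m → ∃ h : G, h ^ m = g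

/-- type (6) -/
def Type6 (G : Type) [Group G] : Prop := Finite (ConjClasses G)

/-- KFN (`t_KFN : S_KFN`): the kernel of a homomorphism from a finitely generated onto a finitely
presented group. (Let `p : F → K` be a finite presentation, `F` free on a finite set `X`, with relators
`S`, and `Y` a finite set of generators of `E`. Choose `s : F → E` with `f s = p` (lift the generators)
and words `w_y ∈ F` with `p w_y = f y`. The kernel of `f` is the normal closure of `s(S)` and the
elements `y (s w_y)⁻¹`: modulo this normal closure `s` induces an inverse of `f`.) -/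
def S_KFN : Prop :=
  ∀ (E K : Type) [Group E] [Group K], Group.FG E → Group.IsFinitelyPresented K →
    ∀ f : E →* K, Surjective f → f.ker.IsFinitelyNormallyGenerated

/-- RSF (`t_RSF : S_RSF`): subgroups of finite index in free groups of finite rank. (`subgroupIsFreeOfIsFree`,
`Subgroup.fg_of_index_ne_zero`; a finitely generated free group has a finite basis.) -/
def S_RSF : Prop :=
  ∀ (r : ℕ) (E : Subgroup (FreeGroup (Fin r))), E.FiniteIndex → Group.IsFinitelyPresented E

/-- RSG (`t_RSG : S_RSF → S_RSG`): subgroups of finite index in finitely presented groups. (`p : F → G` with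
kernel the normal closure of the finite set `S`, `E` the preimage of the subgroup; the kernel is the
normal closure in `E` of the elements `t s t⁻¹`, `s ∈ S`, `t` in a finite set of representatives of the
cosets of `E`. `Group.IsFinitelyPresented.of_surjective` for `E → H`.) -/
def S_RSG : Prop :=
  ∀ (G : Type) [Group G], Group.IsFinitelyPresented G → ∀ H : Subgroup G, H.FiniteIndex →
    Group.IsFinitelyPresented H

/-- EXT (`t_EXT : S_KFN → S_RSF → S_EXT`): extensions of finitely presented groups by finite groups. (`G` is
finitely generated. `p : F → G` surjective, `F` free of finite rank, `E` the preimage of `K`: `E` is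
finitely generated, so by `S_KFN` the kernel of `p`, which is the kernel of `E → K`, is the normal closure
in `E`, hence in `F`, of a finite set.) -/
def S_EXT : Prop :=
  ∀ (G : Type) [Group G] (K : Subgroup G), K.Normal → K.FiniteIndex →
    Group.IsFinitelyPresented K → Group.IsFinitelyPresented G

/-- PRW (`t_PRW : S_PRW`): finite powers of finitely presented groups (induction on `m`, the instance for
`G × H`) -/
def S_PRW : Prop :=
  ∀ (G : Type) [Group G], Group.IsFinitelyPresented G → ∀ m : ℕ,
    Group.IsFinitelyPresented (Fin m → G)

/-- WRE (`t_WRE : S_WRE`): a group with two generators which contains a power of the commutator subgroup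
with finite index. (Let `g_1, ..., g_r` generate `G`, `m = 2 ^ (r + 2)` or any larger number. In
`(ZMod m → G) ⋊ ℤ/m` (or `Fin m`) let `c` be the rotation and `u` the function with value `g_i` at `2 ^ i`
and 1 elsewhere. `H` is the subgroup generated by `u` and `c`. The differences `2 ^ i - 2 ^ j` (`i ≠ j`) are
different modulo `m`, so for `k = 2 ^ i - 2 ^ j` the supports of `u` and its rotation by `k` meet only in
one coordinate, and the commutator of the two is `[g_i, g_j]` (or its inverse) at this coordinate.
Conjugating with rotations of `u` and rotating, `H` contains for each coordinate the normal closure of the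
`[g_i, g_j]`, which is the commutator subgroup. The quotient of `H` by this power embeds in the finite
group `(ZMod m → Abelianization G) ⋊ ℤ/m`.) -/
def S_WRE : Prop :=
  ∀ (G : Type) [Group G], Group.FG G → Finite (Abelianization G) →
    ∃ (m : ℕ) (H : Type) (_ : Group H) (K : Subgroup H), 1 ≤ m ∧ K.Normal ∧ K.FiniteIndex ∧
      Nonempty (K ≃* (Fin m → commutator G)) ∧ Gen 2 H ∧
      ∀ n : ℕ, (∀ g : G, g ^ n = 1) → ∀ h : H, h ^ (n * m) = 1

/-- TWO (`t_TWO : S_RSG → S_EXT → S_PRW → S_WRE → S_TWO`): two generators. (The abelianization is finite: a
finitely generated abelian group of finite exponent; `CommGroup.finite_of_fg_torsion`.) -/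
def S_TWO : Prop :=
  ∀ (G : Type) [Group G], Group.IsFinitelyPresented G → Infinite G → Type2 G →
    ∃ (H : Type) (_ : Group H), Group.IsFinitelyPresented H ∧ Infinite H ∧ Type2 H ∧ Gen 2 H

/-- NBH (`t_NBH : S_KFN → S_NBH`): a finitely presented group has a neighbourhood of quotients. -/
def S_NBH : Prop :=
  ∀ (r : ℕ) (K : Subgroup (FreeGroup (Fin r))) [K.Normal],
    Group.IsFinitelyPresented (FreeGroup (Fin r) ⧸ K) →
    ∃ S : Finset (FreeGroup (Fin r)), (∀ s ∈ S, s ∈ K) ∧
      ∀ K' : Subgroup (FreeGroup (Fin r)), K'.Normal → (∀ s ∈ S, s ∈ K') → K ≤ K'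

/-- BAI (`t_BAI : S_NBH → S_BAI`): the space is a Baire space. (The set of the characteristic functions of the
normal subgroups of infinite index is closed in the compact Hausdorff space `FreeGroup (Fin r) → Bool`: the
conditions for a normal subgroup are closed, and the normal subgroups of finite index form an open set by
`S_NBH`, since finite groups are finitely presented.) -/
def S_BAI : Prop := ∀ r : ℕ, BaireSpace (Marked r)

/-- OPN (`t_OPN : S_OPN`): finitely many words determine the open sets -/
def S_OPN : Prop :=
  (∀ (r : ℕ) (w : FreeGroup (Fin r)), IsClopen {N : Marked r | w ∈ N.1}) ∧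
  ∀ (r : ℕ) (U : Set (Marked r)), IsOpen U → ∀ N ∈ U, ∃ S : Finset (FreeGroup (Fin r)),
    ∀ N' : Marked r, (∀ w ∈ S, w ∈ N'.1 ↔ w ∈ N.1) → N' ∈ U

/-- GIN (`t_GIN : S_NBH → S_OPN → S_GIN`): finitely presented groups and interior points. (From left to right:
the neighbourhood of `S_NBH`. From right to left: let `N` be an interior point, `S` as in `S_OPN`, `K` the
normal closure of the elements of `S` which are in `N`; then `K` is in the set, and its group is infinite
and finitely presented.) -/
def S_GIN : Prop :=
  ∀ (P : (G : Type) → [Group G] → Prop), HerFG P → ∀ r : ℕ,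
    (∃ (G : Type) (_ : Group G), Group.IsFinitelyPresented G ∧ Infinite G ∧ P G ∧ Gen r G) ↔
      (interior {N : Marked r | P (grp N)}).Nonempty

/-- TYP (`t_TYP : S_TYP`): the types pass to infinite quotients. (Type (3): if the quotient `G/N` were
cyclic, it would be `ℤ`; the preimage of `2ℤ` is cyclic and infinite and has an infinite quotient by `N`, so
`N = 1`. Type (4): if `N ≠ 1` then a nontrivial proper subgroup of `G/N` has a preimage of order `p` which
properly contains `N`, and `N` has order `p`; so `G/N` has no nontrivial proper subgroup and is finite.) -/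
def S_TYP : Prop :=
  HerFG (fun G _ => Type2 G) ∧ HerFG (fun G _ => Type3 G) ∧ HerFG (fun G _ => Type4 G) ∧
    HerFG (fun G _ => Type5 G) ∧ HerFG (fun G _ => Type6 G)

end Pool.Agent.L0h7.MS
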