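import Pool.Agent.L0h7.MS.Stm2

/-! # MP_65b575_al, project MS: assembly -/

set_option autoImplicit false

open Function

noncomputable section

namespace Pool.Agent.L0h7.MS

theorem fg_of_fp (G : Type) [Group G] (h : Group.IsFinitelyPresented G) : Group.FG G := by
  obtain ⟨n, f, hf, -⟩ := h.out
  exact Group.fg_of_surjective hf

theorem infinite_commutator (G : Type) [Group G] [Infinite G] [Finite (Abelianization G)] :
    Infinite (commutator G) := by
  by_contra h
  rw [not_infinite_iff_finite] at h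
  have h0 : Finite (G ⧸ commutator G) := inferInstanceAs (Finite (Abelianization G))
  have h1 : (commutator G).FiniteIndex :=
    Subgroup.finiteIndex_of_finite_quotient (H := commutator G)
  have h2 : Finite G := by
    have h3 : Nat.card (commutator G) * (commutator G).index = Nat.card G :=
      Subgroup.card_mul_index _
    have h4 : Nat.card G ≠ 0 := by
      rw [← h3]
      exact Nat.mul_ne_zero Nat.card_pos.ne' h1.index_ne_zero
    exact Nat.finite_of_card_ne_zero h4
  exact not_finite G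

/-- the general form of the reduction to two generators -/
theorem two_gen (hRSG : S_RSG) (hEXT : S_EXT) (hPRW : S_PRW) (hWR2 : S_WR2) (G : Type) [Group G]
    (hG : Group.IsFinitelyPresented G) (hinf : Infinite G) (hab : Finite (Abelianization G)) :
    ∃ m₀ : ℕ, ∀ m : ℕ, m₀ ≤ m →
      ∃ (H : Type) (_ : Group H) (K : Subgroup H), Group.IsFinitelyPresented H ∧ Infinite H ∧
        Gen 2 H ∧ K.Normal ∧ K.FiniteIndex ∧ Nonempty (K ≃* (Fin m → commutator G)) ∧
        ∀ n : ℕ, (∀ g : G, g ^ n = 1) → ∀ h : H, h ^ (n * m) = 1 := by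
  have hfg : Group.FG G := fg_of_fp G hG
  obtain ⟨m₀, h1⟩ := hWR2 G hfg hab
  refine ⟨m₀ + 1, fun m hm => ?_⟩
  obtain ⟨H, i, K, hN, hF, ⟨e⟩, h2, h3⟩ := h1 m (by omega)
  have h0 : Finite (G ⧸ commutator G) := inferInstanceAs (Finite (Abelianization G))
  have hc : (commutator G).FiniteIndex :=
    Subgroup.finiteIndex_of_finite_quotient (H := commutator G)
  have h4 : Group.IsFinitelyPresented (commutator G) := hRSG G hG _ hc
  have h5 : Group.IsFinitelyPresented (Fin m → commutator G) := hPRW _ h4 m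
  have h6 : Group.IsFinitelyPresented K := Group.IsFinitelyPresented.equiv e.symm
  have h7 : Group.IsFinitelyPresented H := hEXT H K hN hF h6
  have h8 : Infinite (commutator G) := infinite_commutator G
  have h9 : Nonempty (Fin m) := ⟨⟨0, by omega⟩⟩
  have h10 : Infinite (Fin m → commutator G) := inferInstance
  have h11 : Infinite K := Infinite.of_injective e.symm e.symm.injective
  have h12 : Infinite H := Infinite.of_injective (Subtype.val : K → H) Subtype.val_injective
  exact ⟨H, i, K, h7, h12, h2, hN, hF, ⟨e⟩, h3⟩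

theorem finite_ab (G : Type) [Group G] [Group.FG G] (h : ∀ g : G, ∃ n : ℕ, 0 < n ∧ g ^ n = 1) :
    Finite (Abelianization G) := by
  have h1 : Group.FG (Abelianization G) :=
    Group.fg_of_surjective (f := (Abelianization.of : G →* Abelianization G))
      (QuotientGroup.mk'_surjective _)
  have h2 : IsMulTorsion (Abelianization G) := by
    intro a
    obtain ⟨g, rfl⟩ : ∃ g, Abelianization.of g = a := QuotientGroup.mk'_surjective (commutator G) a
    obtain ⟨n, hn, hg⟩ := h g
    rw [isOfFinOrder_iff_pow_eq_one]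
    exact ⟨n, hn, by rw [← map_pow, hg, map_one]⟩
  exact CommGroup.finite_of_fg_isMulTorsion _ h2

/-- torsion groups -/
theorem two_tors (hRSG : S_RSG) (hEXT : S_EXT) (hPRW : S_PRW) (hWR2 : S_WR2) (G : Type) [Group G]
    (hG : Group.IsFinitelyPresented G) (hinf : Infinite G)
    (h : ∀ g : G, ∃ n : ℕ, 0 < n ∧ g ^ n = 1) :
    ∃ (H : Type) (_ : Group H), Group.IsFinitelyPresented H ∧ Infinite H ∧
      (∀ g : H, ∃ n : ℕ, 0 < n ∧ g ^ n = 1) ∧ Gen 2 H := by
  have hfg : Group.FG G := fg_of_fp G hG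
  have hab := finite_ab G h
  obtain ⟨m, h1⟩ := two_gen hRSG hEXT hPRW hWR2 G hG hinf hab
  obtain ⟨H, i, K, h2, h3, h4, hN, hF, ⟨e⟩, -⟩ := h1 m le_rfl
  refine ⟨H, i, h2, h3, fun g => ?_, h4⟩
  have h5 : g ^ K.index ∈ K := Subgroup.pow_index_mem K g
  -- a product of finitely many torsion elements
  have h6 : ∀ f : Fin m → commutator G, ∃ n : ℕ, 0 < n ∧ f ^ n = 1 := by
    intro f
    choose n hn hg using fun i => h (f i : G)
    refine ⟨∏ i, n i, Finset.prod_pos fun i _ => hn i, ?_⟩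
    funext i
    apply Subtype.ext
    obtain ⟨q, hq⟩ := Finset.dvd_prod_of_mem n (Finset.mem_univ i)
    change ((f i) ^ (∏ i, n i) : commutator G).1 = 1
    rw [SubmonoidClass.coe_pow, hq, pow_mul, hg i, one_pow]
  obtain ⟨n, hn, hn1⟩ := h6 (e ⟨g ^ K.index, h5⟩)
  have h7 : (⟨g ^ K.index, h5⟩ : K) ^ n = 1 := by
    apply e.injective
    rw [map_pow, hn1, map_one]
  have h8 : (g ^ K.index) ^ n = 1 := by
    have := congrArg Subtype.val h7
    simpa using this
  refine ⟨K.index * n, Nat.mul_pos (Nat.pos_of_ne_zero hF.index_ne_zero) hn, ?_⟩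
  rw [pow_mul, h8]

/-- groups of exponent dividing a power of `n` -/
def PowExp (n : ℕ) (G : Type) [Group G] : Prop := ∃ k : ℕ, ∀ g : G, g ^ (n ^ k) = 1

theorem two_pow (hRSG : S_RSG) (hEXT : S_EXT) (hPRW : S_PRW) (hWR2 : S_WR2) (n : ℕ) (hn : 1 ≤ n)
    (G : Type) [Group G] (hG : Group.IsFinitelyPresented G) (hinf : Infinite G)
    (h : PowExp n G) :
    ∃ (H : Type) (_ : Group H), Group.IsFinitelyPresented H ∧ Infinite H ∧ PowExp n H ∧
      Gen 2 H := by
  obtain ⟨k, hk⟩ := h
  have hn2 : 2 ≤ n := by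
    by_contra hcon
    have : n = 1 := by omega
    subst this
    have h1 : Subsingleton G := ⟨fun a b => by
      have h2 := hk a
      have h3 := hk b
      rw [one_pow, pow_one] at h2 h3
      rw [h2, h3]⟩
    exact not_finite G
  have hfg : Group.FG G := fg_of_fp G hG
  have hab := finite_ab G (fun g => ⟨n ^ k, Nat.pow_pos (by omega), hk g⟩)
  obtain ⟨m₀, h1⟩ := two_gen hRSG hEXT hPRW hWR2 G hG hinf hab
  obtain ⟨H, i, K, h2, h3, h4, -, -, -, h5⟩ := h1 (n ^ m₀) (Nat.lt_pow_self (by omega)).le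
  exact ⟨H, i, h2, h3, ⟨k + m₀, fun g => by rw [pow_add]; exact h5 _ hk g⟩, h4⟩

theorem her_exp (q : ℕ) : HerFG (fun G _ => ∀ g : G, g ^ q = 1) := by
  intro G H _ _ f _ hf _ h y
  obtain ⟨x, rfl⟩ := hf y
  rw [← map_pow, h x, map_one]

theorem closed_exp (hOPN : S_OPN) (r q : ℕ) :
    IsClosed {N : Marked r | ∀ g : grp N, g ^ q = 1} := by
  have h : {N : Marked r | ∀ g : grp N, g ^ q = 1} = ⋂ w, {N : Marked r | w ^ q ∈ N.1} := by
    ext N
    rw [Set.mem_iInter]
    constructor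
    · intro h w
      have h1 := h (QuotientGroup.mk w)
      exact (QuotientGroup.eq_one_iff (w ^ q)).1 (by rw [QuotientGroup.mk_pow]; exact h1)
    · intro h g
      obtain ⟨w, rfl⟩ := QuotientGroup.mk_surjective g
      rw [← QuotientGroup.mk_pow]
      exact (QuotientGroup.eq_one_iff (w ^ q)).2 (h w)
  rw [h]
  exact isClosed_iInter fun w => (hOPN.1 r (w ^ q)).isClosed

theorem meagre_iff (hOPN : S_OPN) (hBAI : S_BAI) (r : ℕ) (q : ℕ → ℕ) :
    ¬ IsMeagre {N : Marked r | ∃ k : ℕ, ∀ g : grp N, g ^ (q k) = 1} ↔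
      ∃ k : ℕ, (interior {N : Marked r | ∀ g : grp N, g ^ (q k) = 1}).Nonempty := by
  have hB := hBAI r
  constructor
  · intro h
    by_contra hcon
    push Not at hcon
    apply h
    have h1 : {N : Marked r | ∃ k : ℕ, ∀ g : grp N, g ^ (q k) = 1} =
        ⋃ k, {N : Marked r | ∀ g : grp N, g ^ (q k) = 1} := by
      ext N
      simp
    rw [h1]
    refine isMeagre_iUnion fun k => ?_
    refine IsNowhereDense.isMeagre ?_
    rw [(closed_exp hOPN r (q k)).isNowhereDense_iff]
    exact hcon k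
  · rintro ⟨k, hk⟩ hM
    have h1 : Dense {N : Marked r | ∃ k : ℕ, ∀ g : grp N, g ^ (q k) = 1}ᶜ :=
      dense_of_mem_residual hM
    obtain ⟨N, hN1, hN2⟩ := h1.inter_open_nonempty _ isOpen_interior hk
    exact hN2 ⟨k, interior_subset hN1⟩

/-- category and finitely presented groups of finite exponent, `r` generators -/
theorem category (hOPN : S_OPN) (hBAI : S_BAI) (hGIN : S_GIN) (r : ℕ) (q : ℕ → ℕ) :
    (∃ (G : Type) (_ : Group G), Group.IsFinitelyPresented G ∧ Infinite G ∧
      (∃ k : ℕ, ∀ g : G, g ^ (q k) = 1) ∧ Gen r G) ↔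
      ¬ IsMeagre {N : Marked r | ∃ k : ℕ, ∀ g : grp N, g ^ (q k) = 1} := by
  rw [meagre_iff hOPN hBAI r q]
  constructor
  · rintro ⟨G, i, h1, h2, ⟨k, hk⟩, h3⟩
    exact ⟨k, (hGIN (fun G _ => ∀ g : G, g ^ (q k) = 1) (her_exp (q k)) r).1
      ⟨G, i, h1, h2, hk, h3⟩⟩
  · rintro ⟨k, hk⟩
    obtain ⟨G, i, h1, h2, h3, h4⟩ :=
      (hGIN (fun G _ => ∀ g : G, g ^ (q k) = 1) (her_exp (q k)) r).2 hk
    exact ⟨G, i, h1, h2, ⟨k, h3⟩, h4⟩

end Pool.Agent.L0h7.MS
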