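import Pool.Agent.L0h7.MS.MAIN

/-! # MP_65b575_al, project MS: number of generators, types (3) and (4) -/

set_option autoImplicit false

open Function

noncomputable section

namespace Pool.Agent.L0h7.MS

theorem gen_mono {r s : ℕ} (hr : 1 ≤ r) (hrs : r ≤ s) (G : Type) [Group G] (h : Gen r G) :
    Gen s G := by
  obtain ⟨f, hf⟩ := h
  let c : Fin s → Fin r := fun i => if h : i.1 < r then ⟨i.1, h⟩ else ⟨0, by omega⟩
  have hc : ∀ i : Fin r, c (Fin.castLE hrs i) = i := by
    intro i
    simp [c, i.2]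
  refine ⟨f.comp (FreeGroup.map c), hf.comp ?_⟩
  intro x
  refine ⟨FreeGroup.map (Fin.castLE hrs) x, ?_⟩
  rw [FreeGroup.map.comp]
  have : c ∘ Fin.castLE hrs = id := funext hc
  rw [this, FreeGroup.map.id]

theorem gen2_type3 (G : Type) [Group G] (hfg : Group.FG G) (h : Type3 G) : Gen 2 G := by
  by_contra hcon
  have h1 : ∀ a b : G, IsCyclic (Subgroup.closure {a, b}) := by
    intro a b
    apply h.2
    intro htop
    apply hcon
    refine ⟨FreeGroup.lift ![a, b], ?_⟩
    rw [← MonoidHom.range_eq_top, FreeGroup.range_lift_eq_closure]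
    have : Set.range ![a, b] = {a, b} := by
      simp [Matrix.range_cons, Set.pair_comm]
    rw [this, htop]
  have h2 : ∀ S : Finset G, ∃ g : G, Subgroup.closure (S : Set G) ≤ Subgroup.zpowers g := by
    classical
    intro S
    induction S using Finset.induction_on with
    | empty => exact ⟨1, by simp⟩
    | insert a S _ ih =>
      obtain ⟨g, hg⟩ := ih
      obtain ⟨⟨c, hc⟩, hc1⟩ := (h1 a g).exists_generator
      refine ⟨c, ?_⟩
      have h3 : ∀ x ∈ Subgroup.closure {a, g}, x ∈ Subgroup.zpowers c := by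
        intro x hx
        obtain ⟨k, hk⟩ := Subgroup.mem_zpowers_iff.1 (hc1 ⟨x, hx⟩)
        rw [Subgroup.mem_zpowers_iff]
        exact ⟨k, by simpa using congrArg Subtype.val hk⟩
      have ha : a ∈ Subgroup.zpowers c := h3 a (Subgroup.subset_closure (by simp))
      have hg1 : g ∈ Subgroup.zpowers c := h3 g (Subgroup.subset_closure (by simp))
      rw [Subgroup.closure_le]
      intro x hx
      rw [Finset.coe_insert, Set.mem_insert_iff] at hx
      rcases hx with rfl | hx
      · exact ha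
      · exact (Subgroup.zpowers_le.2 hg1) (hg (Subgroup.subset_closure hx))
  obtain ⟨S, hS⟩ := hfg.out
  obtain ⟨g, hg⟩ := h2 S
  rw [hS] at hg
  exact h.1 ⟨g, fun x => hg (Subgroup.mem_top x)⟩

theorem type3_of_type4 (G : Type) [Group G] [hinf : Infinite G] (h : Type4 G) : Type3 G := by
  obtain ⟨p, hp, h1⟩ := h
  refine ⟨?_, ?_⟩
  · rintro ⟨g, hg⟩
    have hfin : ¬ IsOfFinOrder g := by
      intro hf
      have h2 : Subgroup.zpowers g = ⊤ := (Subgroup.eq_top_iff' _).2 hg
      have h3 : (Subgroup.zpowers g : Set G).Finite := by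
        exact finite_zpowers.2 hf
      rw [h2] at h3
      exact Set.infinite_univ h3
    have hk : ∀ k : ℤ, k ≠ 0 → g ^ k ≠ 1 := by
      intro k hk hk1
      exact hfin (isOfFinOrder_iff_zpow_eq_one.2 ⟨k, hk, hk1⟩)
    have h2 : Subgroup.zpowers (g ^ 2) ≠ ⊥ := by
      intro h3
      have h4 : g ^ 2 = 1 := by
        have : g ^ 2 ∈ Subgroup.zpowers (g ^ 2) := Subgroup.mem_zpowers _
        rw [h3] at this
        exact Subgroup.mem_bot.1 this
      exact hk 2 (by norm_num) (by exact_mod_cast h4)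
    have h3 : Subgroup.zpowers (g ^ 2) ≠ ⊤ := by
      intro h4
      have h5 : g ∈ Subgroup.zpowers (g ^ 2) := by
        rw [h4]; exact Subgroup.mem_top g
      obtain ⟨k, hk1⟩ := Subgroup.mem_zpowers_iff.1 h5
      apply hk (2 * k - 1) (by omega)
      have h6 : g ^ (2 * k) = g := by
        rw [zpow_mul]
        exact_mod_cast hk1
      rw [zpow_sub, h6, zpow_one, mul_inv_cancel]
    obtain ⟨-, h4⟩ := h1 _ h2 h3
    have h5 : Finite (Subgroup.zpowers (g ^ 2)) := Nat.finite_of_card_ne_zero (by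
      rw [h4]; exact hp.ne_zero)
    have h6 : IsOfFinOrder (g ^ 2) := by
      exact finite_zpowers.1 (Set.toFinite _)
    exact hfin (h6.of_pow (by norm_num))
  · intro H hH
    by_cases hb : H = ⊥
    · subst hb
      infer_instance
    · exact (h1 H hb hH).1

/-- every element has finite order -/
def Tors (G : Type) [Group G] : Prop := ∀ g : G, ∃ n : ℕ, 0 < n ∧ g ^ n = 1

theorem her_tors : HerFG (fun G _ => Tors G) := by
  intro G H _ _ f _ hf _ h y
  obtain ⟨x, rfl⟩ := hf y
  obtain ⟨n, hn, hx⟩ := h x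
  exact ⟨n, hn, by rw [← map_pow, hx, map_one]⟩

theorem two_type2 (hRSG : S_RSG) (hEXT : S_EXT) (hPRW : S_PRW) (hWR2 : S_WR2)
    (G : Type) [Group G] (hG : Group.IsFinitelyPresented G) (hinf : Infinite G)
    (h : Type2 G) :
    ∃ (H : Type) (_ : Group H), Group.IsFinitelyPresented H ∧ Infinite H ∧ Type2 H ∧
      Gen 2 H := by
  obtain ⟨n, hn, hn1⟩ := h
  obtain ⟨H, i, h1, h2, ⟨k, hk⟩, h3⟩ := two_pow hRSG hEXT hPRW hWR2 n hn G hG hinf
    ⟨1, by rw [pow_one]; exact hn1⟩
  exact ⟨H, i, h1, h2, ⟨n ^ k, Nat.pow_pos (by omega), hk⟩, h3⟩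

end Pool.Agent.L0h7.MS
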