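import Pool.Agent.L0h7.MS.MAIN2

/-! # MP_65b575_al, project MS: the theorem -/

set_option autoImplicit false

open Function

noncomputable section

namespace Pool.Agent.L0h7.MS

def FP (P : (G : Type) → [Group G] → Prop) : Prop :=
  ∃ (G : Type) (_ : Group G), Group.IsFinitelyPresented G ∧ Infinite G ∧ P G

def FPr (r : ℕ) (P : (G : Type) → [Group G] → Prop) : Prop :=
  ∃ (G : Type) (_ : Group G), Group.IsFinitelyPresented G ∧ Infinite G ∧ P G ∧ Gen r G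

theorem fp_of_fpr {r : ℕ} {P : (G : Type) → [Group G] → Prop} (h : FPr r P) : FP P := by
  obtain ⟨G, i, h1, h2, h3, -⟩ := h
  exact ⟨G, i, h1, h2, h3⟩

theorem fpr_mono {r : ℕ} (hr : 2 ≤ r) {P : (G : Type) → [Group G] → Prop} (h : FPr 2 P) :
    FPr r P := by
  obtain ⟨G, i, h1, h2, h3, h4⟩ := h
  exact ⟨G, i, h1, h2, h3, gen_mono (by norm_num) hr G h4⟩

theorem main (hRSG : S_RSG) (hEXT : S_EXT) (hPRW : S_PRW) (hWR2 : S_WR2) (hOPN : S_OPN)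
    (hBAI : S_BAI) (hGIN : S_GIN) (hTYP : S_TYP) :
    (∀ r : ℕ, BaireSpace (Marked r)) ∧
    (∀ n : ℕ, 1 ≤ n → (FP (fun G _ => PowExp n G) → FPr 2 (fun G _ => PowExp n G)) ∧
      ∀ r : ℕ, 2 ≤ r →
        (FP (fun G _ => PowExp n G) ↔ ¬ IsMeagre {N : Marked r | PowExp n (grp N)})) ∧
    ((FP (fun G _ => Type2 G) → FPr 2 (fun G _ => Type2 G)) ∧
      ∀ r : ℕ, 2 ≤ r →
        (FP (fun G _ => Type2 G) ↔ ¬ IsMeagre {N : Marked r | Type2 (grp N)}) ∧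
        (FP (fun G _ => Type2 G) ↔ (interior {N : Marked r | Type2 (grp N)}).Nonempty)) ∧
    ((FP (fun G _ => Tors G) → FPr 2 (fun G _ => Tors G)) ∧
      ∀ r : ℕ, 2 ≤ r →
        (FP (fun G _ => Tors G) ↔ (interior {N : Marked r | Tors (grp N)}).Nonempty)) ∧
    (∀ r : ℕ, 2 ≤ r →
      (FP (fun G _ => Type3 G) ↔ (interior {N : Marked r | Type3 (grp N)}).Nonempty)) ∧
    (∀ r : ℕ, 2 ≤ r →
      (FP (fun G _ => Type4 G) ↔ (interior {N : Marked r | Type4 (grp N)}).Nonempty)) ∧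
    (∀ r : ℕ,
      (FPr r (fun G _ => Type5 G) ↔ (interior {N : Marked r | Type5 (grp N)}).Nonempty)) ∧
    (∀ r : ℕ,
      (FPr r (fun G _ => Type6 G) ↔ (interior {N : Marked r | Type6 (grp N)}).Nonempty)) := by
  obtain ⟨t2, t3, t4, t5, t6⟩ := hTYP
  have hcat := category hOPN hBAI hGIN
  have h2a : ∀ n : ℕ, 1 ≤ n → FP (fun G _ => PowExp n G) → FPr 2 (fun G _ => PowExp n G) := by
    rintro n hn ⟨G, i, h1, h2, h3⟩
    exact two_pow hRSG hEXT hPRW hWR2 n hn G h1 h2 h3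
  have h2b : FP (fun G _ => Type2 G) → FPr 2 (fun G _ => Type2 G) := by
    rintro ⟨G, i, h1, h2, h3⟩
    exact two_type2 hRSG hEXT hPRW hWR2 G h1 h2 h3
  have h2c : FP (fun G _ => Tors G) → FPr 2 (fun G _ => Tors G) := by
    rintro ⟨G, i, h1, h2, h3⟩
    exact two_tors hRSG hEXT hPRW hWR2 G h1 h2 h3
  have h3a : FP (fun G _ => Type3 G) → FPr 2 (fun G _ => Type3 G) := by
    rintro ⟨G, i, h1, h2, h3⟩
    exact ⟨G, i, h1, h2, h3, gen2_type3 G (fg_of_fp G h1) h3⟩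
  have h4a : FP (fun G _ => Type4 G) → FPr 2 (fun G _ => Type4 G) := by
    rintro ⟨G, i, h1, h2, h3⟩
    exact ⟨G, i, h1, h2, h3, gen2_type3 G (fg_of_fp G h1) (type3_of_type4 G h3)⟩
  refine ⟨hBAI, fun n hn => ⟨h2a n hn, fun r hr => ?_⟩, ⟨h2b, fun r hr => ⟨?_, ?_⟩⟩,
    ⟨h2c, fun r hr => ?_⟩, fun r hr => ?_, fun r hr => ?_, fun r => ?_, fun r => ?_⟩
  · constructor
    · intro h
      exact (hcat r (fun k => n ^ k)).1 (fpr_mono hr (h2a n hn h))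
    · intro h
      exact fp_of_fpr ((hcat r (fun k => n ^ k)).2 h)
  · have hset : ∀ (G : Type) [Group G], (∃ k : ℕ, ∀ g : G, g ^ (k + 1) = 1) ↔ Type2 G := by
      intro G _
      constructor
      · rintro ⟨k, hk⟩
        exact ⟨k + 1, by omega, hk⟩
      · rintro ⟨n, hn, hk⟩
        exact ⟨n - 1, by rw [Nat.sub_add_cancel hn]; exact hk⟩
    have hs : {N : Marked r | ∃ k : ℕ, ∀ g : grp N, g ^ (k + 1) = 1} =
        {N : Marked r | Type2 (grp N)} := by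
      ext N
      exact hset (grp N)
    have h0 := hcat r (fun k => k + 1)
    rw [hs] at h0
    rw [← h0]
    constructor
    · intro h
      obtain ⟨G, i, h1, h2, h3, h4⟩ := fpr_mono hr (h2b h)
      exact ⟨G, i, h1, h2, (hset G).2 h3, h4⟩
    · rintro ⟨G, i, h1, h2, h3, -⟩
      exact ⟨G, i, h1, h2, (hset G).1 h3⟩
  · exact ⟨fun h => (hGIN _ t2 r).1 (fpr_mono hr (h2b h)), fun h => fp_of_fpr ((hGIN _ t2 r).2 h)⟩
  · exact ⟨fun h => (hGIN _ her_tors r).1 (fpr_mono hr (h2c h)),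
      fun h => fp_of_fpr ((hGIN _ her_tors r).2 h)⟩
  · exact ⟨fun h => (hGIN _ t3 r).1 (fpr_mono hr (h3a h)), fun h => fp_of_fpr ((hGIN _ t3 r).2 h)⟩
  · exact ⟨fun h => (hGIN _ t4 r).1 (fpr_mono hr (h4a h)), fun h => fp_of_fpr ((hGIN _ t4 r).2 h)⟩
  · exact hGIN _ t5 r
  · exact hGIN _ t6 r

end Pool.Agent.L0h7.MS
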