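import Pool.Agent.L0h7.MS.Stm

/-! # MP_65b575_al, project MS, part 2: isolated points and simple groups: statements

The modules prove `t_X : ... → S_X`, with the hypotheses given in the docstring of `S_X`. Mathlib:
`Group.IsFinitelyPresented.quotient`, `.of_surjective`, `.equiv`, `Subgroup.IsFinitelyNormallyGenerated`,
`transferCenterPow`, `RegularWreathProduct`. -/

set_option autoImplicit false

open Function

noncomputable section

namespace Pool.Agent.L0h7.MS

/-- ISP (`t_ISP : S_OPN → S_ISP`): isolated points are finitely presented. (`S` as in `S_OPN` for the open set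
`{N}`, `K` the normal closure of the elements of `S` which are in `N`: `K` is a point, so `K = N`.) -/
def S_ISP : Prop :=
  ∀ (r : ℕ) (N : Marked r), IsOpen ({N} : Set (Marked r)) → Group.IsFinitelyPresented (grp N)

/-- ISD (`t_ISD : S_NBH → S_OPN → S_ISD`): (`{N}` is the intersection of the finitely many open sets
`{N' | s ∈ N'.1}`, `s ∈ S` (`S_NBH`), and `{N' | t ∉ N'.1}`, `t ∈ T`.) -/
def S_ISD : Prop :=
  ∀ (r : ℕ) (N : Marked r), Group.IsFinitelyPresented (grp N) →
    ∀ T : Finset (FreeGroup (Fin r)), (∀ t ∈ T, t ∉ N.1) →
      (∀ N' : Marked r, N.1 ≤ N'.1 → N' ≠ N → ∃ t ∈ T, t ∈ N'.1) →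
      IsOpen ({N} : Set (Marked r))

/-- SM4 (`t_SM4 : S_SM4`): (Let `N` be a nontrivial proper normal subgroup: it has order `p`. Its centralizer
has finite index, so is infinite, so is `⊤`: `N` is central. Let `g ∉ N`. The subgroup generated by `N` and
`g` is abelian; if it is proper it has order `p` and is equal to `N`, contradiction. So `G` is generated by
`N` and `g`; it is abelian, and the subgroup generated by `g` is not `⊥`, has finite index, so is infinite,
so is `⊤`; then `G` is infinite cyclic, and the subgroup of `g ^ 2` is a nontrivial proper subgroup of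
infinite order.) -/
def S_SM4 : Prop := ∀ (G : Type) [Group G], Infinite G → Type4 G → IsSimpleGroup G

/-- VC3 (`t_VC3 : S_VC3`): (Let `K` be a proper normal subgroup of finite index: cyclic, infinite, generated
by `k`. First case: `k` is central. Then the center has finite index `c`, and
`τ g = (g ^ c) ^ K.index` is a homomorphism into `K` (`transferCenterPow`). If `τ` is injective then `Q` is
cyclic, contradiction. So there is `x ≠ 1` of finite order. Let `A = closure {x, k ^ 2}`; its elements are
`x ^ a * k ^ (2 * b)`. `k ∉ A`, since otherwise `k ^ (1 - 2 * b)` has finite order. So `A` is cyclic and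
infinite and contains an element `x ≠ 1` of finite order, contradiction. Second case: there is `t` with
`t * k * t⁻¹ = k⁻¹` (the generators of `K` are `k` and `k⁻¹`). `closure {t, k ^ 3}` is not cyclic, since `t`
does not commute with `k ^ 3`; so it is `⊤`. The subgroup `L` generated by `k ^ 3` is normal and `Q ⧸ L` is
generated by the image of `t`; so `Q ⧸ L` is commutative and `k ^ (-2) = t * k * t⁻¹ * k⁻¹` is in `L`, a
contradiction.) -/
def S_VC3 : Prop :=
  ∀ (Q : Type) [Group Q], Infinite Q → Type3 Q → ∀ K : Subgroup Q, K.Normal → K.FiniteIndex → K = ⊤

/-- SM3 (`t_SM3 : S_TYP → S_VC3 → S_SM3`): (Let `M` be maximal among the normal subgroups of infinite index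
(Zorn: if the union of a chain had finite index it would be finitely generated, so a member of the chain).
`Q = G ⧸ M` is infinite, of type (3) (`S_TYP`), and its nontrivial normal subgroups have finite index, so
they are `⊤` by `S_VC3`.) -/
def S_SM3 : Prop :=
  ∀ (G : Type) [Group G], Group.FG G → Infinite G → Type3 G →
    ∃ (M : Subgroup G) (_ : M.Normal), IsCyclic M ∧ Infinite (G ⧸ M) ∧ IsSimpleGroup (G ⧸ M)

/-- FN6 (`t_FN6 : S_FN6`): groups with finitely many conjugacy classes have finitely many normal subgroups,
all of them normal closures of finite sets. -/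
def S_FN6 : Prop :=
  ∀ (G : Type) [Group G], Type6 G → Set.Finite {N : Subgroup G | N.Normal} ∧
    ∀ N : Subgroup G, N.Normal → N.IsFinitelyNormallyGenerated

/-- FI6 (`t_FI6 : S_FI6`): (Each conjugacy class of `G` contains at most `H.index` classes of `H`: if `T` is a
finite set with `G = H T` and `x ∈ G`, then the elements of `H` which are conjugate to `x` in `G` are
conjugate in `H` to elements `t x t⁻¹`, `t ∈ T`.) -/
def S_FI6 : Prop :=
  ∀ (G : Type) [Group G], Type6 G → ∀ H : Subgroup G, H.FiniteIndex → Type6 H

/-- SM6 (`t_SM6 : S_RSG → S_TYP → S_FN6 → S_FI6 → S_SM6`): (By `S_FN6` there is a normal subgroup `N` of `G`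
maximal among those of infinite index. `Q = G ⧸ N` is infinite, finitely presented, of type (6), and its
nontrivial normal subgroups have finite index. The intersection `M` of all nontrivial normal subgroups of
`Q` (finitely many) has finite index, so it is infinite, finitely presented (`S_RSG`) and of type (6)
(`S_FI6`). Let `K` be maximal among the proper normal subgroups of `M`: `M ⧸ K` is simple. If it were finite,
`K` would have finite index in `Q`, and so would the normal core of (the image of) `K` in `Q`, a nontrivial
normal subgroup, which then contains `M`: contradiction.) -/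
def S_SM6 : Prop :=
  ∀ (G : Type) [Group G], Group.IsFinitelyPresented G → Infinite G → Type6 G →
    ∃ (H : Type) (_ : Group H), Group.IsFinitelyPresented H ∧ Infinite H ∧ IsSimpleGroup H ∧ Type6 H

/-- W2G (`t_W2G : S_W2G`): the theorem `core` of `Pool/Agent/L0h2/MS/WRE.lean` gives this: the subgroup of the
wreath product generated by `u` and `c` contains the power of the commutator subgroup, which is the whole
base group. -/
def S_W2G : Prop :=
  ∀ (G : Type) [Group G], Group.FG G → commutator G = ⊤ →
    ∃ m : ℕ, Gen 2 (RegularWreathProduct G (Multiplicative (ZMod (m + 1))))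

/-- WCC (`t_WCC : S_WCC`): (Let `(f, q)` be an element. Conjugating with an element of the base group we reach
that `f` is 1 outside a set of representatives of the orbits of `⟨q⟩` on `Q`; conjugating with an element
of the base group which is constant on these orbits we reach that the other values are in a fixed finite
set of representatives of the conjugacy classes of `G`.) -/
def S_WCC : Prop :=
  ∀ (G Q : Type) [Group G] [Group Q], Finite Q → Type6 G → Type6 (RegularWreathProduct G Q)

/-- WFP (`t_WFP : S_EXT → S_PRW → S_WFP`): the wreath product with a finite group. -/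
def S_WFP : Prop :=
  ∀ (G Q : Type) [Group G] [Group Q], Finite Q → Group.IsFinitelyPresented G →
    Group.IsFinitelyPresented (RegularWreathProduct G Q)

end Pool.Agent.L0h7.MS
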