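import Pool.Agent.L0h7.MS.MAIN3
import Pool.Agent.L0h7.MS.Stm3

/-! # MP_65b575_al, project MS: isolated points, simple groups -/

set_option autoImplicit false

open Function
open scoped commutatorElement

noncomputable section

namespace Pool.Agent.L0h7.MS

theorem simple_isolated (hISD : S_ISD) {r : ℕ} (N : Marked r)
    (h : Group.IsFinitelyPresented (grp N)) (hs : IsSimpleGroup (grp N)) :
    IsOpen ({N} : Set (Marked r)) := by
  refine hISD r N h ∅ (by simp) ?_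
  intro N' hle hne
  exfalso
  have hn : (N'.1.map (QuotientGroup.mk' N.1)).Normal :=
    Subgroup.Normal.map N'.2.1 _ (QuotientGroup.mk'_surjective _)
  rcases hs.eq_bot_or_eq_top_of_normal _ hn with h1 | h1
  · apply hne
    apply Subtype.ext
    refine le_antisymm ?_ hle
    rw [Subgroup.map_eq_bot_iff, QuotientGroup.ker_mk'] at h1
    exact h1
  · have h2 : N'.1 = ⊤ := by
      rw [eq_top_iff]
      intro w _
      have h3 : (QuotientGroup.mk' N.1) w ∈ N'.1.map (QuotientGroup.mk' N.1) := by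
        rw [h1]; exact Subgroup.mem_top _
      obtain ⟨v, hv, hvw⟩ := h3
      have h4 : v⁻¹ * w ∈ N.1 := by
        rw [← QuotientGroup.eq]
        exact hvw
      have h5 := N'.1.mul_mem hv (hle h4)
      rwa [mul_inv_cancel_left] at h5
    have h3 : Infinite (FreeGroup (Fin r) ⧸ N'.1) := N'.2.2
    rw [h2] at h3
    exact not_finite (FreeGroup (Fin r) ⧸ (⊤ : Subgroup (FreeGroup (Fin r))))

theorem type6_isolated (hISD : S_ISD) {r : ℕ} (N : Marked r)
    (h : Group.IsFinitelyPresented (grp N)) (hs : Type6 (grp N)) :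
    IsOpen ({N} : Set (Marked r)) := by
  classical
  have hfin : Finite (ConjClasses (grp N)) := hs
  have hF : Fintype (ConjClasses (grp N)) := Fintype.ofFinite _
  -- a word for each class
  have hw : ∀ c : ConjClasses (grp N), ∃ w : FreeGroup (Fin r),
      ConjClasses.mk (QuotientGroup.mk w : grp N) = c := by
    intro c
    obtain ⟨g, rfl⟩ := ConjClasses.mk_surjective c
    obtain ⟨w, rfl⟩ := QuotientGroup.mk_surjective g
    exact ⟨w, rfl⟩
  choose wd hwd using hw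
  refine hISD r N h ((Finset.univ.image wd).filter (fun w => w ∉ N.1)) ?_ ?_
  · intro t ht
    exact (Finset.mem_filter.1 ht).2
  · intro N' hle hne
    obtain ⟨w, hw1, hw2⟩ : ∃ w, w ∈ N'.1 ∧ w ∉ N.1 := by
      by_contra hcon
      push Not at hcon
      exact hne (Subtype.ext (le_antisymm hcon hle))
    have h1 := hwd (ConjClasses.mk (QuotientGroup.mk w : grp N))
    rw [ConjClasses.mk_eq_mk_iff_isConj, isConj_iff] at h1
    obtain ⟨c, hc⟩ := h1
    obtain ⟨v, rfl⟩ := QuotientGroup.mk_surjective c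
    set t := wd (ConjClasses.mk (QuotientGroup.mk w : grp N)) with ht
    have h2 : (v * t * v⁻¹)⁻¹ * w ∈ N.1 := by
      rw [← QuotientGroup.eq]
      exact hc
    have h3 : v * t * v⁻¹ ∈ N'.1 := by
      have h4 := N'.1.mul_mem hw1 (N'.1.inv_mem (hle h2))
      have h5 : w * ((v * t * v⁻¹)⁻¹ * w)⁻¹ = v * t * v⁻¹ := by group
      rwa [h5] at h4
    have h4 : t ∈ N'.1 := by
      have h5 := N'.2.1.conj_mem _ h3 v⁻¹
      have h6 : v⁻¹ * (v * t * v⁻¹) * v⁻¹⁻¹ = t := by group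
      rwa [h6] at h5
    refine ⟨t, Finset.mem_filter.2 ⟨Finset.mem_image.2 ⟨_, Finset.mem_univ _, rfl⟩, ?_⟩, h4⟩
    intro h5
    apply hw2
    have h6 : v * t * v⁻¹ ∈ N.1 := N.2.1.conj_mem _ h5 v
    have h7 := N.1.mul_mem h6 h2
    have h8 : v * t * v⁻¹ * ((v * t * v⁻¹)⁻¹ * w) = w := by group
    rwa [h8] at h7

/-- the point of a group with `r` generators -/
theorem exists_point {r : ℕ} (G : Type) [Group G] (hinf : Infinite G) (h : Gen r G) :
    ∃ N : Marked r, Nonempty (grp N ≃* G) := by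
  obtain ⟨f, hf⟩ := h
  let e := QuotientGroup.quotientKerEquivOfSurjective f hf
  have h1 : Infinite (FreeGroup (Fin r) ⧸ f.ker) := Infinite.of_injective e.symm e.symm.injective
  exact ⟨⟨f.ker, inferInstance, h1⟩, ⟨e⟩⟩

theorem fpr_of_isolated (hISP : S_ISP) {P : (G : Type) → [Group G] → Prop} {r : ℕ}
    (h : ∃ N : Marked r, IsOpen ({N} : Set (Marked r)) ∧ P (grp N)) : FPr r P := by
  obtain ⟨N, h1, h2⟩ := h
  exact ⟨grp N, inferInstance, hISP r N h1, N.2.2, h2, QuotientGroup.mk' N.1,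
    QuotientGroup.mk'_surjective _⟩

theorem isolated_simple (hISD : S_ISD) {P : (G : Type) → [Group G] → Prop} (hP : HerFG P) {r : ℕ}
    (h : FPr r (fun G _ => IsSimpleGroup G ∧ P G)) :
    ∃ N : Marked r, IsOpen ({N} : Set (Marked r)) ∧ IsSimpleGroup (grp N) ∧ P (grp N) := by
  obtain ⟨G, i, h1, h2, ⟨h3, h4⟩, h5⟩ := h
  obtain ⟨N, ⟨e⟩⟩ := exists_point G h2 h5
  have h6 : Group.IsFinitelyPresented (grp N) := Group.IsFinitelyPresented.equiv e.symm
  have h7 : IsSimpleGroup (grp N) := by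
    have : Nontrivial (grp N) := e.toEquiv.nontrivial
    exact IsSimpleGroup.isSimpleGroup_of_surjective (e.symm : G →* grp N) e.symm.surjective
  exact ⟨N, simple_isolated hISD N h6 h7, h7,
    hP G (grp N) (e.symm : G →* grp N) (fg_of_fp G h1) e.symm.surjective N.2.2 h4⟩

theorem isolated_type6 (hISD : S_ISD) (hP : HerFG (fun G _ => Type6 G)) {r : ℕ}
    (h : FPr r (fun G _ => Type6 G)) :
    ∃ N : Marked r, IsOpen ({N} : Set (Marked r)) ∧ Type6 (grp N) := by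
  obtain ⟨G, i, h1, h2, h4, h5⟩ := h
  obtain ⟨N, ⟨e⟩⟩ := exists_point G h2 h5
  have h6 : Group.IsFinitelyPresented (grp N) := Group.IsFinitelyPresented.equiv e.symm
  have h7 : Type6 (grp N) :=
    hP G (grp N) (e.symm : G →* grp N) (fg_of_fp G h1) e.symm.surjective N.2.2 h4
  exact ⟨N, type6_isolated hISD N h6 h7, h7⟩

/-- an infinite simple group with finitely many conjugacy classes is perfect -/
theorem perfect_of_type6 (G : Type) [Group G] (hinf : Infinite G) (hs : IsSimpleGroup G)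
    (h6 : Type6 G) : commutator G = ⊤ := by
  rcases hs.eq_bot_or_eq_top_of_normal (commutator G) inferInstance with h | h
  · exfalso
    have hc : ∀ a b : G, a * b = b * a := by
      intro a b
      have h1 : ⁅a, b⁆ ∈ commutator G :=
        Subgroup.commutator_mem_commutator (Subgroup.mem_top a) (Subgroup.mem_top b)
      rw [h, Subgroup.mem_bot, commutatorElement_eq_one_iff_mul_comm] at h1
      exact h1
    have h2 : Injective (ConjClasses.mk : G → ConjClasses G) := by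
      intro a b hab
      rw [ConjClasses.mk_eq_mk_iff_isConj, isConj_iff] at hab
      obtain ⟨c, hc1⟩ := hab
      rw [hc c a, mul_inv_cancel_right] at hc1
      exact hc1
    have h3 : Finite (ConjClasses G) := h6
    have h4 : Finite G := Finite.of_injective _ h2
    exact not_finite G
  · exact h

theorem two_type6 (hSM6 : S_SM6) (hW2G : S_W2G) (hWCC : S_WCC) (hWFP : S_WFP)
    (h : FP (fun G _ => Type6 G)) : FPr 2 (fun G _ => Type6 G) := by
  obtain ⟨G, i, h1, h2, h3⟩ := h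
  obtain ⟨H, j, h4, h5, h6, h7⟩ := hSM6 G h1 h2 h3
  obtain ⟨m, hm⟩ := hW2G H (fg_of_fp H h4) (perfect_of_type6 H h5 h6 h7)
  refine ⟨RegularWreathProduct H (Multiplicative (ZMod (m + 1))), inferInstance,
    hWFP H _ inferInstance h4, ?_, hWCC H _ inferInstance h7, hm⟩
  refine Infinite.of_injective
    (fun x : H => (⟨fun _ => x, 1⟩ : RegularWreathProduct H (Multiplicative (ZMod (m + 1))))) ?_
  intro a b hab
  have h8 := congrArg RegularWreathProduct.left hab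
  exact congrFun h8 1

theorem simple_type3 (hSM3 : S_SM3) (hTYP : S_TYP) (h : FP (fun G _ => Type3 G)) :
    FP (fun G _ => IsSimpleGroup G ∧ Type3 G) := by
  obtain ⟨G, i, h1, h2, h3⟩ := h
  obtain ⟨M, hM, h4, h5, h6⟩ := hSM3 G (fg_of_fp G h1) h2 h3
  refine ⟨G ⧸ M, inferInstance, ?_, h5, h6, hTYP.2.1 G (G ⧸ M) (QuotientGroup.mk' M) (fg_of_fp G h1)
    (QuotientGroup.mk'_surjective M) h5 h3⟩
  have h7 : Group.FG M := by
    obtain ⟨g, hg⟩ := h4
    refine Group.fg_def.2 ⟨{g}, ?_⟩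
    rw [Finset.coe_singleton, ← Subgroup.zpowers_eq_closure, Subgroup.eq_top_iff']
    exact hg
  exact Group.IsFinitelyPresented.quotient M (Subgroup.IsFinitelyNormallyGenerated.of_FG M)

theorem main2 (hTYP : S_TYP) (hISP : S_ISP) (hISD : S_ISD) (hSM4 : S_SM4) (hSM3 : S_SM3)
    (hSM6 : S_SM6) (hW2G : S_W2G) (hWCC : S_WCC) (hWFP : S_WFP) :
    ((FP (fun G _ => Type3 G) ↔ FP (fun G _ => IsSimpleGroup G ∧ Type3 G)) ∧
      ∀ r : ℕ, 2 ≤ r → (FP (fun G _ => Type3 G) ↔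
        ∃ N : Marked r, IsOpen ({N} : Set (Marked r)) ∧ IsSimpleGroup (grp N) ∧ Type3 (grp N))) ∧
    ((FP (fun G _ => Type4 G) ↔ FP (fun G _ => IsSimpleGroup G ∧ Type4 G)) ∧
      ∀ r : ℕ, 2 ≤ r → (FP (fun G _ => Type4 G) ↔
        ∃ N : Marked r, IsOpen ({N} : Set (Marked r)) ∧ IsSimpleGroup (grp N) ∧ Type4 (grp N))) ∧
    ((FP (fun G _ => Type6 G) ↔ FP (fun G _ => IsSimpleGroup G ∧ Type6 G)) ∧
      (FP (fun G _ => Type6 G) ↔ FPr 2 (fun G _ => Type6 G)) ∧
      ∀ r : ℕ, 2 ≤ r → (FP (fun G _ => Type6 G) ↔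
        ∃ N : Marked r, IsOpen ({N} : Set (Marked r)) ∧ Type6 (grp N))) := by
  obtain ⟨t2, t3, t4, t5, t6⟩ := id hTYP
  have h3a := simple_type3 hSM3 hTYP
  have h4a : FP (fun G _ => Type4 G) → FP (fun G _ => IsSimpleGroup G ∧ Type4 G) := by
    rintro ⟨G, i, h1, h2, h3⟩
    exact ⟨G, i, h1, h2, hSM4 G h2 h3, h3⟩
  have h6a : FP (fun G _ => Type6 G) → FP (fun G _ => IsSimpleGroup G ∧ Type6 G) := by
    rintro ⟨G, i, h1, h2, h3⟩
    obtain ⟨H, j, h4, h5, h6, h7⟩ := hSM6 G h1 h2 h3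
    exact ⟨H, j, h4, h5, h6, h7⟩
  have h6b := two_type6 hSM6 hW2G hWCC hWFP
  refine ⟨⟨⟨h3a, ?_⟩, fun r hr => ⟨fun h => ?_, ?_⟩⟩, ⟨⟨h4a, ?_⟩, fun r hr => ⟨fun h => ?_, ?_⟩⟩,
    ⟨⟨h6a, ?_⟩, ⟨h6b, fp_of_fpr⟩, fun r hr => ⟨fun h => ?_, ?_⟩⟩⟩
  · rintro ⟨G, i, h1, h2, -, h3⟩
    exact ⟨G, i, h1, h2, h3⟩
  · obtain ⟨G, i, h1, h2, h3, h4⟩ := h3a h
    exact isolated_simple hISD t3 ⟨G, i, h1, h2, ⟨h3, h4⟩,
      gen_mono (by norm_num) hr G (gen2_type3 G (fg_of_fp G h1) h4)⟩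
  · rintro ⟨N, h1, -, h2⟩
    exact fp_of_fpr (fpr_of_isolated (P := fun G _ => Type3 G) hISP ⟨N, h1, h2⟩)
  · rintro ⟨G, i, h1, h2, -, h3⟩
    exact ⟨G, i, h1, h2, h3⟩
  · obtain ⟨G, i, h1, h2, h3, h4⟩ := h4a h
    exact isolated_simple hISD t4 ⟨G, i, h1, h2, ⟨h3, h4⟩,
      gen_mono (by norm_num) hr G (gen2_type3 G (fg_of_fp G h1) (type3_of_type4 G h4))⟩
  · rintro ⟨N, h1, -, h2⟩
    exact fp_of_fpr (fpr_of_isolated (P := fun G _ => Type4 G) hISP ⟨N, h1, h2⟩)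
  · rintro ⟨G, i, h1, h2, -, h3⟩
    exact ⟨G, i, h1, h2, h3⟩
  · exact isolated_type6 hISD t6 (fpr_mono hr (h6b h))
  · rintro ⟨N, h1, h2⟩
    exact fp_of_fpr (fpr_of_isolated (P := fun G _ => Type6 G) hISP ⟨N, h1, h2⟩)

end Pool.Agent.L0h7.MS
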