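import Pool.Agent.L0h7.MS.Stm

/-! # MP_65b575_al, project MS: stronger form of WRE -/

set_option autoImplicit false

open Function

namespace Pool.Agent.L0h7.MS

/-- WR2 (`t_WR2 : S_WR2`): as `S_WRE`, for all large `m` -/
def S_WR2 : Prop :=
  ∀ (G : Type) [Group G], Group.FG G → Finite (Abelianization G) →
    ∃ m₀ : ℕ, ∀ m : ℕ, m₀ ≤ m →
      ∃ (H : Type) (_ : Group H) (K : Subgroup H), K.Normal ∧ K.FiniteIndex ∧
        Nonempty (K ≃* (Fin m → commutator G)) ∧ Gen 2 H ∧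
        ∀ n : ℕ, (∀ g : G, g ^ n = 1) → ∀ h : H, h ^ (n * m) = 1

theorem wre_of (h : S_WR2) : S_WRE := by
  intro G _ h1 h2
  obtain ⟨m₀, h3⟩ := h G h1 h2
  obtain ⟨H, i, K, h4, h5, h6, h7, h8⟩ := h3 (m₀ + 1) (by omega)
  exact ⟨m₀ + 1, H, i, K, by omega, h4, h5, h6, h7, h8⟩

end Pool.Agent.L0h7.MS
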