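import Pool.Agent.L0h2.MS.WRE
import Pool.Agent.L0h7.MS.Stm2

/-! # MP_65b575_al, project MS: all large `m` (after helper2's module WRE) -/

set_option autoImplicit false
set_option linter.all false

open Function Pool.Agent.L0h7.MS Pool.Agent.L0h2.MS
open scoped commutatorElement

namespace Pool.Agent.L0h7.MS

/-- the construction -/
theorem wre' {G Q : Type} [Group G] [CommGroup Q] [Finite Q] (c₀ : Q) (hc₀ : ∀ k : Q, ∃ n : ℕ, k = c₀ ^ n) {r : ℕ} (g : Fin r → G)
    (hg : Subgroup.closure (Set.range g) = ⊤) (emb : Fin r → Q) (hinj : Injective emb)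
    (hS : ∀ i j s t, i ≠ j → emb s * (emb i)⁻¹ = emb t * (emb j)⁻¹ → s = i)
    (hab : Finite (Abelianization G)) :
    ∃ (H : Type) (_ : Group H) (K : Subgroup H), K.Normal ∧ K.FiniteIndex ∧
      Nonempty (K ≃* (Fin (Nat.card Q) → commutator G)) ∧ Gen 2 H ∧
      ∀ n : ℕ, (∀ g : G, g ^ n = 1) → ∀ h : H, h ^ (n * Nat.card Q) = 1 := by
  classical
  obtain ⟨fu, hfu⟩ : ∃ fu : Q → G, fu = Function.extend emb g (fun _ => 1) := ⟨_, rfl⟩
  have h1 : ∀ i, fu (emb i) = g i := by
    intro i
    rw [hfu]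
    exact hinj.extend_apply g _ i
  have h2 : ∀ x, (¬ ∃ i, emb i = x) → fu x = 1 := by
    intro x hx
    rw [hfu]
    exact Function.extend_apply' g _ x hx
  obtain ⟨u, hu⟩ : ∃ u : RegularWreathProduct G Q, u = base fu := ⟨_, rfl⟩
  obtain ⟨c, hc⟩ : ∃ c : RegularWreathProduct G Q, c = RegularWreathProduct.inl c₀ := ⟨_, rfl⟩
  obtain ⟨H, hH⟩ : ∃ H : Subgroup (RegularWreathProduct G Q), H = Subgroup.closure {u, c} :=
    ⟨_, rfl⟩
  have huH : u ∈ H := by
    rw [hH]
    exact Subgroup.subset_closure (by simp)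
  have hcH : c ∈ H := by
    rw [hH]
    exact Subgroup.subset_closure (by simp)
  have hkH : ∀ k : Q, (RegularWreathProduct.inl k : RegularWreathProduct G Q) ∈ H := by
    intro k
    obtain ⟨n, hn⟩ := hc₀ k
    rw [hn, map_pow, ← hc]
    exact H.pow_mem hcH n
  have hcore := core g hg emb hS fu h1 h2 (H.comap base) (by
    rw [Subgroup.mem_comap, ← hu]
    exact huH) (by
    intro f hf k
    rw [Subgroup.mem_comap] at hf ⊢
    rw [← conj_inl]
    exact H.mul_mem (H.mul_mem (hkH k) hf) (H.inv_mem (hkH k)))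
  have hbase : ∀ f : Q → G, (∀ x, f x ∈ commutator G) → base f ∈ H := by
    intro f hf
    have h3 := hcore (show f ∈ Subgroup.pi Set.univ (fun _ : Q => commutator G) from fun x _ => hf x)
    rwa [Subgroup.mem_comap] at h3
  obtain ⟨ψ, hψ⟩ : ∃ ψ : H →* RegularWreathProduct (Abelianization G) Q,
    ψ = mapW.comp H.subtype := ⟨_, rfl⟩
  have hψv : ∀ h : H, ψ h = mapW (h : RegularWreathProduct G Q) := by
    intro h
    rw [hψ]
    rfl
  obtain ⟨ε⟩ : Nonempty (Q ≃ Fin (Nat.card Q)) := ⟨Finite.equivFin Q⟩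
  refine ⟨H, inferInstance, ψ.ker, inferInstance, inferInstance, ?_, ?_, ?_⟩
  · -- the kernel
    have hker : ∀ f : Fin (Nat.card Q) → commutator G,
        mapW (base (fun x => (f (ε x) : G)) : RegularWreathProduct G Q) = 1 := by
      intro f
      refine RegularWreathProduct.ext ?_ rfl
      funext x
      show Abelianization.of (f (ε x) : G) = 1
      have h3 : (f (ε x) : G) ∈ (Abelianization.of (G := G)).ker := by
        rw [Abelianization.ker_of]
        exact (f (ε x)).2
      exact h3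
    obtain ⟨φ, hφ⟩ : ∃ φ : (Fin (Nat.card Q) → commutator G) →* ψ.ker, ∀ f,
        ((φ f : H) : RegularWreathProduct G Q) = base (fun x => (f (ε x) : G)) := by
      refine ⟨{ toFun := fun f => ⟨⟨base (fun x => (f (ε x) : G)),
                  hbase _ (fun x => (f (ε x)).2)⟩, ?_⟩
                map_one' := ?_
                map_mul' := ?_ }, fun f => rfl⟩
      · rw [MonoidHom.mem_ker, hψv]
        exact hker f
      · apply Subtype.ext
        apply Subtype.ext
        rfl
      · intro a b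
        apply Subtype.ext
        apply Subtype.ext
        show base (fun x => ((a * b) (ε x) : G)) = base (fun x => (a (ε x) : G)) *
          base (fun x => (b (ε x) : G))
        rw [← map_mul]
        rfl
    refine ⟨(MulEquiv.ofBijective φ ⟨?_, ?_⟩).symm⟩
    · intro a b hab
      have h3 : base (fun x => (a (ε x) : G)) = base (fun x => (b (ε x) : G)) := by
        rw [← hφ, ← hφ, hab]
      have h4 : (fun x => (a (ε x) : G)) = fun x => (b (ε x) : G) :=
        congrArg RegularWreathProduct.left h3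
      funext i
      apply Subtype.ext
      have h5 := congrFun h4 (ε.symm i)
      simpa using h5
    · rintro ⟨⟨w, hw⟩, hk⟩
      rw [MonoidHom.mem_ker, hψv] at hk
      have hk' : mapW w = 1 := hk
      have h3 : w.right = 1 := congrArg RegularWreathProduct.right hk'
      have h4 : ∀ x, w.left x ∈ commutator G := by
        intro x
        have h5 : Abelianization.of (w.left x) = 1 :=
          congrFun (congrArg RegularWreathProduct.left hk') x
        have h6 : w.left x ∈ (Abelianization.of (G := G)).ker := h5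
        rwa [Abelianization.ker_of] at h6
      refine ⟨fun i => ⟨w.left (ε.symm i), h4 _⟩, ?_⟩
      apply Subtype.ext
      apply Subtype.ext
      rw [hφ]
      refine RegularWreathProduct.ext ?_ ?_
      · funext x
        show w.left (ε.symm (ε x)) = w.left x
        rw [Equiv.symm_apply_apply]
      · exact h3.symm
  · -- two generators
    refine ⟨FreeGroup.lift ![⟨u, huH⟩, ⟨c, hcH⟩], ?_⟩
    have h3 : ∀ w ∈ Subgroup.closure {u, c}, ∃ a : FreeGroup (Fin 2),
        ((FreeGroup.lift ![(⟨u, huH⟩ : H), ⟨c, hcH⟩] a : H) : RegularWreathProduct G Q) = w := by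
      intro w hw
      induction hw using Subgroup.closure_induction with
      | mem y hy =>
        rcases hy with hy | hy
        · refine ⟨FreeGroup.of 0, ?_⟩
          rw [FreeGroup.lift_apply_of, hy]
          rfl
        · refine ⟨FreeGroup.of 1, ?_⟩
          rw [FreeGroup.lift_apply_of, Set.mem_singleton_iff.1 hy]
          rfl
      | one => exact ⟨1, by rw [map_one]; rfl⟩
      | mul a b _ _ ha hb =>
        obtain ⟨a', ha'⟩ := ha
        obtain ⟨b', hb'⟩ := hb
        exact ⟨a' * b', by rw [map_mul, Subgroup.coe_mul, ha', hb']⟩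
      | inv a _ ha =>
        obtain ⟨a', ha'⟩ := ha
        exact ⟨a'⁻¹, by rw [map_inv, Subgroup.coe_inv, ha']⟩
    rintro ⟨w, hw⟩
    obtain ⟨a, ha⟩ := h3 w (by rw [← hH]; exact hw)
    exact ⟨a, Subtype.ext ha⟩
  · -- the exponent
    intro n hn h
    apply Subtype.ext
    rw [Subgroup.coe_pow, Subgroup.coe_one]
    obtain ⟨w, hw⟩ : ∃ w, w = (h : RegularWreathProduct G Q) := ⟨_, rfl⟩
    rw [← hw, Nat.mul_comm, pow_mul]
    have h3 : (w ^ Nat.card Q).right = 1 := by
      have h4 := map_pow (RegularWreathProduct.rightHom (D := G) (Q := Q)) w (Nat.card Q)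
      rw [RegularWreathProduct.rightHom_eq_right] at h4
      rw [h4, pow_card_eq_one']
    have h5 : w ^ Nat.card Q = base (w ^ Nat.card Q).left := by
      refine RegularWreathProduct.ext rfl h3
    rw [h5, ← map_pow]
    have h6 : (w ^ Nat.card Q).left ^ n = 1 := by
      funext x
      exact hn _
    rw [h6, map_one]

theorem t_WR2 : S_WR2 := by
  intro G _ hG hab
  obtain ⟨S, hS⟩ := Group.fg_def.1 hG
  obtain ⟨r, hr⟩ : ∃ r, r = S.card := ⟨_, rfl⟩
  obtain ⟨g, hg⟩ : ∃ g : Fin r → G, Set.range g = S := by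
    refine ⟨fun i => (S.equivFin.symm (Fin.cast hr i) : G), ?_⟩
    subst hr
    ext x
    constructor
    · rintro ⟨i, rfl⟩
      exact (S.equivFin.symm _).2
    · intro hx
      exact ⟨S.equivFin ⟨x, hx⟩, by simp⟩
  refine ⟨2 * 3 ^ r + 1, fun m hm => ?_⟩
  obtain ⟨M, rfl⟩ : ∃ M, m = M + 1 := ⟨m - 1, by omega⟩
  have hM : 2 * 3 ^ r ≤ M := by omega
  have hlt : ∀ i j : Fin r, 3 ^ (i : ℕ) + 3 ^ (j : ℕ) < M + 1 := by
    intro i j
    have h1 : 3 ^ (i : ℕ) ≤ 3 ^ r := Nat.pow_le_pow_right (by norm_num) i.isLt.le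
    have h2 : 3 ^ (j : ℕ) ≤ 3 ^ r := Nat.pow_le_pow_right (by norm_num) j.isLt.le
    omega
  have hcard : Nat.card (Multiplicative (ZMod (M + 1))) = M + 1 := by
    rw [Nat.card_eq_fintype_card]
    simp [ZMod.card]
  have key : ∃ (H : Type) (_ : Group H) (K : Subgroup H), K.Normal ∧ K.FiniteIndex ∧
      Nonempty (K ≃* (Fin (Nat.card (Multiplicative (ZMod (M + 1)))) → commutator G)) ∧ Gen 2 H ∧
      ∀ n : ℕ, (∀ g : G, g ^ n = 1) →
        ∀ h : H, h ^ (n * Nat.card (Multiplicative (ZMod (M + 1)))) = 1 := by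
    refine wre' (Q := Multiplicative (ZMod (M + 1))) (Multiplicative.ofAdd 1) ?_ g (by rw [hg, hS])
      (fun i => Multiplicative.ofAdd ((3 ^ (i : ℕ) : ℕ) : ZMod (M + 1))) ?_ ?_ hab
    · intro k
      refine ⟨(Multiplicative.toAdd k).val, ?_⟩
      rw [← ofAdd_nsmul, nsmul_one, ZMod.natCast_zmod_val]
      rfl
    · intro i j hij
      have h1 : ((3 ^ (i : ℕ) : ℕ) : ZMod (M + 1)) = ((3 ^ (j : ℕ) : ℕ) : ZMod (M + 1)) :=
        Multiplicative.ofAdd.injective hij
      rw [ZMod.natCast_eq_natCast_iff', Nat.mod_eq_of_lt (by have := hlt i i; omega),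
        Nat.mod_eq_of_lt (by have := hlt j j; omega)] at h1
      exact Fin.ext (Nat.pow_right_injective (le_refl 2 |>.trans (by norm_num)) h1)
    · intro i j s t hij h
      have h1 : ((3 ^ (s : ℕ) : ℕ) : ZMod (M + 1)) - ((3 ^ (i : ℕ) : ℕ) : ZMod (M + 1)) =
          ((3 ^ (t : ℕ) : ℕ) : ZMod (M + 1)) - ((3 ^ (j : ℕ) : ℕ) : ZMod (M + 1)) := by
        rw [sub_eq_add_neg, sub_eq_add_neg]
        exact h
      have h2 : ((3 ^ (s : ℕ) + 3 ^ (j : ℕ) : ℕ) : ZMod (M + 1)) =
          ((3 ^ (t : ℕ) + 3 ^ (i : ℕ) : ℕ) : ZMod (M + 1)) := by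
        rw [Nat.cast_add, Nat.cast_add]
        linear_combination h1
      rw [ZMod.natCast_eq_natCast_iff', Nat.mod_eq_of_lt (hlt s j), Nat.mod_eq_of_lt (hlt t i)] at h2
      exact Fin.ext (sidon h2 (fun h => hij (Fin.ext h)))
  rw [hcard] at key
  exact key

end Pool.Agent.L0h7.MS
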